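import Pool.Agent.TH605.AP.WF
import Pool.Agent.TH230.Aug.Sphere

/-! Job 2835 (AP-B1, helper883 for helper605): the reflections `s i`. -/

set_option autoImplicit false

open Set Topology Filter

namespace Pool.Agent.TH883.AP

open Pool.Agent.TH605.AP

/-- the form in homogeneous coordinates -/
noncomputable def Eh (V : HV) (a b c d : ℝ) : ℝ :=
  V.k * (a ^ 2 + b ^ 2) - 2 * (V.p * (a * c + b * d) + V.q * (b * c - a * d)) +
    V.c * (c ^ 2 + d ^ 2)

/-- the value of the form at a quotient -/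
theorem E_div (V : HV) (u v : ℂ) (huv : u ≠ 0 ∨ v ≠ 0) :
    ∃ μ : ℝ, 0 < μ ∧ E V (if v = 0 then (OnePoint.infty : OnePoint ℂ) else
      ((u / v : ℂ) : OnePoint ℂ)) = μ * Eh V u.re u.im v.re v.im := by
  by_cases hv : v = 0
  · rw [if_pos hv]
    have hu : u ≠ 0 := by
      rcases huv with h | h
      · exact h
      · exact absurd hv h
    have hN : 0 < u.re ^ 2 + u.im ^ 2 := by
      have := Complex.normSq_pos.2 hu
      rw [Complex.normSq_apply] at this
      nlinarith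
    refine ⟨1 / (u.re ^ 2 + u.im ^ 2), by positivity, ?_⟩
    have h1 : E V (OnePoint.infty : OnePoint ℂ) = V.k := rfl
    rw [h1, hv]
    unfold Eh
    simp only [Complex.zero_re, Complex.zero_im]
    field_simp
    ring
  · rw [if_neg hv]
    have hN : 0 < v.re ^ 2 + v.im ^ 2 := by
      have := Complex.normSq_pos.2 hv
      rw [Complex.normSq_apply] at this
      nlinarith
    refine ⟨1 / (v.re ^ 2 + v.im ^ 2), by positivity, ?_⟩
    have h1 : E V ((u / v : ℂ) : OnePoint ℂ) = V.k * ((u / v).re ^ 2 + (u / v).im ^ 2) -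
      2 * (V.p * (u / v).re + V.q * (u / v).im) + V.c := rfl
    have h2 : (u / v).re = (u.re * v.re + u.im * v.im) / (v.re ^ 2 + v.im ^ 2) := by
      rw [Complex.div_re, Complex.normSq_apply]
      ring_nf
    have h3 : (u / v).im = (u.im * v.re - u.re * v.im) / (v.re ^ 2 + v.im ^ 2) := by
      rw [Complex.div_im, Complex.normSq_apply]
      ring_nf
    rw [h1, h2, h3]
    unfold Eh
    field_simp
    ring

/-- the reflection of a point in homogeneous coordinates -/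
theorem s_hom (i : Fin 4) (p : OnePoint ℂ) :
    ∃ x y z w : ℝ, (x ≠ 0 ∨ y ≠ 0 ∨ z ≠ 0 ∨ w ≠ 0) ∧
      p = (if (⟨z, w⟩ : ℂ) = 0 then (OnePoint.infty : OnePoint ℂ) else
        (((⟨x, y⟩ / ⟨z, w⟩ : ℂ) : ℂ) : OnePoint ℂ)) ∧
      s i p = (if (M i 1 0 * ⟨x, -y⟩ + M i 1 1 * ⟨z, -w⟩ : ℂ) = 0 then
          (OnePoint.infty : OnePoint ℂ) else
        (((M i 0 0 * ⟨x, -y⟩ + M i 0 1 * ⟨z, -w⟩) / (M i 1 0 * ⟨x, -y⟩ + M i 1 1 * ⟨z, -w⟩) : ℂ) :
          OnePoint ℂ)) := by
  induction p using OnePoint.rec with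
  | infty =>
    refine ⟨1, 0, 0, 0, Or.inl one_ne_zero, ?_, ?_⟩
    · rw [if_pos]
      rfl
    · have h1 : cj OnePoint.infty = OnePoint.infty := rfl
      have h2 : (⟨1, -0⟩ : ℂ) = 1 := by
        apply Complex.ext <;> simp
      have h3 : (⟨0, -0⟩ : ℂ) = 0 := by
        apply Complex.ext <;> simp
      unfold s
      rw [h1, OnePoint.smul_infty_eq_ite, h2, h3]
      simp
  | coe z =>
    refine ⟨z.re, z.im, 1, 0, Or.inr (Or.inr (Or.inl one_ne_zero)), ?_, ?_⟩
    · have h3 : (⟨1, 0⟩ : ℂ) = 1 := rfl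
      rw [h3, if_neg one_ne_zero, div_one]
    · have h1 : cj (z : OnePoint ℂ) = ((starRingEnd ℂ z : ℂ) : OnePoint ℂ) := rfl
      have h2 : (⟨z.re, -z.im⟩ : ℂ) = starRingEnd ℂ z := by
        apply Complex.ext <;> simp
      have h3 : (⟨1, -0⟩ : ℂ) = 1 := by
        apply Complex.ext <;> simp
      unfold s
      rw [h1, OnePoint.smul_some_eq_ite, h2, h3]
      simp

theorem M_val (i : Fin 4) : ∃ a a' b b' c c' d d' : ℝ,
    M i 0 0 = ⟨a, a'⟩ ∧ M i 0 1 = ⟨b, b'⟩ ∧ M i 1 0 = ⟨c, c'⟩ ∧ M i 1 1 = ⟨d, d'⟩ ∧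
    (∀ (V : HV) (x y z w : ℝ),
      Eh V (a * x - a' * -y + (b * z - b' * -w)) (a * -y + a' * x + (b * -w + b' * z))
        (c * x - c' * -y + (d * z - d' * -w)) (c * -y + c' * x + (d * -w + d' * z)) =
        Eh (refl (vD i) V) x y z w) := by
  fin_cases i
  · refine ⟨-1, 0, 2, 0, 0, 0, 1, 0, ?_, ?_, ?_, ?_, ?_⟩
    · show (-1 : ℂ) = _
      apply Complex.ext <;> simp
    · show (2 : ℂ) = _
      apply Complex.ext <;> simp
    · show (0 : ℂ) = _
      apply Complex.ext <;> simp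
    · show (1 : ℂ) = _
      apply Complex.ext <;> simp
    · intro V x y z w
      have hv : vD ((fun i => i) ⟨0, by decide⟩) = ⟨0, 1, 0, 2⟩ := rfl
      rw [hv]
      unfold Eh Pool.Agent.TH605.AP.refl ip
      simp only
      ring
  · refine ⟨-1, 0, 0, 0, 0, 0, 1, 0, ?_, ?_, ?_, ?_, ?_⟩
    · show (-1 : ℂ) = _
      apply Complex.ext <;> simp
    · show (0 : ℂ) = _
      apply Complex.ext <;> simp
    · show (0 : ℂ) = _
      apply Complex.ext <;> simp
    · show (1 : ℂ) = _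
      apply Complex.ext <;> simp
    · intro V x y z w
      have hv : vD ((fun i => i) ⟨1, by decide⟩) = ⟨0, -1, 0, 0⟩ := rfl
      rw [hv]
      unfold Eh Pool.Agent.TH605.AP.refl ip
      simp only
      ring
  · refine ⟨1, -2, -2, 0, 2, 0, -1, -2, ?_, ?_, ?_, ?_, ?_⟩
    · show (1 - 2 * Complex.I : ℂ) = _
      apply Complex.ext <;> simp
    · show (-2 : ℂ) = _
      apply Complex.ext <;> simp
    · show (2 : ℂ) = _
      apply Complex.ext <;> simp
    · show (-1 - 2 * Complex.I : ℂ) = _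
      apply Complex.ext <;> simp
    · intro V x y z w
      have hv : vD ((fun i => i) ⟨2, by decide⟩) = ⟨2, 1, -2, 2⟩ := rfl
      rw [hv]
      unfold Eh Pool.Agent.TH605.AP.refl ip
      simp only
      ring
  · refine ⟨1, 0, 0, 0, 2, 0, -1, 0, ?_, ?_, ?_, ?_, ?_⟩
    · show (1 : ℂ) = _
      apply Complex.ext <;> simp
    · show (0 : ℂ) = _
      apply Complex.ext <;> simp
    · show (2 : ℂ) = _
      apply Complex.ext <;> simp
    · show (-1 : ℂ) = _
      apply Complex.ext <;> simp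
    · intro V x y z w
      have hv : vD ((fun i => i) ⟨3, by decide⟩) = ⟨2, 1, 0, 0⟩ := rfl
      rw [hv]
      unfold Eh Pool.Agent.TH605.AP.refl ip
      simp only
      ring

theorem M_M (i : Fin 4) : ∃ ε : ℂ, ε ≠ 0 ∧
    M i 0 0 * starRingEnd ℂ (M i 0 0) + M i 0 1 * starRingEnd ℂ (M i 1 0) = ε ∧
    M i 0 0 * starRingEnd ℂ (M i 0 1) + M i 0 1 * starRingEnd ℂ (M i 1 1) = 0 ∧
    M i 1 0 * starRingEnd ℂ (M i 0 0) + M i 1 1 * starRingEnd ℂ (M i 1 0) = 0 ∧
    M i 1 0 * starRingEnd ℂ (M i 0 1) + M i 1 1 * starRingEnd ℂ (M i 1 1) = ε := by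
  refine ⟨1, one_ne_zero, ?_⟩
  fin_cases i
  · have h00 : M ((fun i => i) ⟨0, by decide⟩) 0 0 = (-1 : ℂ) := rfl
    have h01 : M ((fun i => i) ⟨0, by decide⟩) 0 1 = (2 : ℂ) := rfl
    have h10 : M ((fun i => i) ⟨0, by decide⟩) 1 0 = (0 : ℂ) := rfl
    have h11 : M ((fun i => i) ⟨0, by decide⟩) 1 1 = (1 : ℂ) := rfl
    rw [h00, h01, h10, h11]
    refine ⟨?_, ?_, ?_, ?_⟩ <;> apply Complex.ext <;> simp
  · have h00 : M ((fun i => i) ⟨1, by decide⟩) 0 0 = (-1 : ℂ) := rfl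
    have h01 : M ((fun i => i) ⟨1, by decide⟩) 0 1 = (0 : ℂ) := rfl
    have h10 : M ((fun i => i) ⟨1, by decide⟩) 1 0 = (0 : ℂ) := rfl
    have h11 : M ((fun i => i) ⟨1, by decide⟩) 1 1 = (1 : ℂ) := rfl
    rw [h00, h01, h10, h11]
    refine ⟨?_, ?_, ?_, ?_⟩ <;> apply Complex.ext <;> simp
  · have h00 : M ((fun i => i) ⟨2, by decide⟩) 0 0 = (1 - 2 * Complex.I : ℂ) := rfl
    have h01 : M ((fun i => i) ⟨2, by decide⟩) 0 1 = (-2 : ℂ) := rfl
    have h10 : M ((fun i => i) ⟨2, by decide⟩) 1 0 = (2 : ℂ) := rfl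
    have h11 : M ((fun i => i) ⟨2, by decide⟩) 1 1 = (-1 - 2 * Complex.I : ℂ) := rfl
    rw [h00, h01, h10, h11]
    refine ⟨?_, ?_, ?_, ?_⟩ <;> apply Complex.ext <;> simp
  · have h00 : M ((fun i => i) ⟨3, by decide⟩) 0 0 = (1 : ℂ) := rfl
    have h01 : M ((fun i => i) ⟨3, by decide⟩) 0 1 = (0 : ℂ) := rfl
    have h10 : M ((fun i => i) ⟨3, by decide⟩) 1 0 = (2 : ℂ) := rfl
    have h11 : M ((fun i => i) ⟨3, by decide⟩) 1 1 = (-1 : ℂ) := rfl
    rw [h00, h01, h10, h11]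
    refine ⟨?_, ?_, ?_, ?_⟩ <;> apply Complex.ext <;> simp

theorem map_map (p : OnePoint ℂ) : cj (cj p) = p := by
  induction p using OnePoint.rec with
  | infty => rfl
  | coe z =>
    show (((starRingEnd ℂ) ((starRingEnd ℂ) z) : ℂ) : OnePoint ℂ) = _
    rw [Complex.conj_conj]

theorem s_s (i : Fin 4) (p : OnePoint ℂ) : s i (s i p) = p := by
  unfold s
  have h1 : cj (M i • cj p) = (M i).map (starRingEnd ℂ) • cj (cj p) :=
    OnePoint.map_smul (starRingEnd ℂ) (M i) (cj p)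
  rw [h1, map_map, smul_smul]
  obtain ⟨ε, hε, e1, e2, e3, e4⟩ := M_M i
  set g : GLC := M i * (M i).map (starRingEnd ℂ) with hg
  have g00 : g 0 0 = ε := by
    rw [← e1, hg]
    simp [Matrix.mul_apply, Fin.sum_univ_two]
  have g01 : g 0 1 = 0 := by
    rw [← e2, hg]
    simp [Matrix.mul_apply, Fin.sum_univ_two]
  have g10 : g 1 0 = 0 := by
    rw [← e3, hg]
    simp [Matrix.mul_apply, Fin.sum_univ_two]
  have g11 : g 1 1 = ε := by
    rw [← e4, hg]
    simp [Matrix.mul_apply, Fin.sum_univ_two]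
  induction p using OnePoint.rec with
  | infty =>
    rw [OnePoint.smul_infty_eq_ite, if_pos g10]
  | coe z =>
    rw [OnePoint.smul_some_eq_ite, g00, g01, g10, g11, if_neg (by simpa using hε)]
    rw [add_zero, zero_mul, zero_add, mul_div_cancel_left₀ _ hε]

theorem E_s (i : Fin 4) (V : HV) (p : OnePoint ℂ) :
    ∃ μ : ℝ, 0 < μ ∧ E V (s i p) = μ * E (refl (vD i) V) p := by
  obtain ⟨x, y, z, w, hne, hp, hs⟩ := s_hom i p
  obtain ⟨a, a', b, b', c, c', d, d', ha, hb, hc, hd, hE⟩ := M_val i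
  set u : ℂ := M i 0 0 * ⟨x, -y⟩ + M i 0 1 * ⟨z, -w⟩ with hu
  set v : ℂ := M i 1 0 * ⟨x, -y⟩ + M i 1 1 * ⟨z, -w⟩ with hv
  have hdet : M i 0 0 * M i 1 1 - M i 0 1 * M i 1 0 ≠ 0 := by
    have := (M i).det_ne_zero
    rwa [Matrix.det_fin_two] at this
  have huv : u ≠ 0 ∨ v ≠ 0 := by
    by_contra hcon
    push Not at hcon
    obtain ⟨h1, h2⟩ := hcon
    have h3 : (M i 0 0 * M i 1 1 - M i 0 1 * M i 1 0) * ⟨x, -y⟩ = 0 := by
      have : (M i 0 0 * M i 1 1 - M i 0 1 * M i 1 0) * ⟨x, -y⟩ = M i 1 1 * u - M i 0 1 * v := by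
        rw [hu, hv]; ring
      rw [this, h1, h2]; ring
    have h4 : (M i 0 0 * M i 1 1 - M i 0 1 * M i 1 0) * ⟨z, -w⟩ = 0 := by
      have : (M i 0 0 * M i 1 1 - M i 0 1 * M i 1 0) * ⟨z, -w⟩ = M i 0 0 * v - M i 1 0 * u := by
        rw [hu, hv]; ring
      rw [this, h1, h2]; ring
    rcases mul_eq_zero.1 h3 with h5 | h5
    · exact hdet h5
    rcases mul_eq_zero.1 h4 with h6 | h6
    · exact hdet h6
    have hx : x = 0 := by simpa using congrArg Complex.re h5
    have hy : y = 0 := by simpa using congrArg Complex.im h5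
    have hz : z = 0 := by simpa using congrArg Complex.re h6
    have hw : w = 0 := by simpa using congrArg Complex.im h6
    rcases hne with h | h | h | h
    · exact h hx
    · exact h hy
    · exact h hz
    · exact h hw
  obtain ⟨μ, hμ, h1⟩ := E_div V u v huv
  have hne' : (⟨x, y⟩ : ℂ) ≠ 0 ∨ (⟨z, w⟩ : ℂ) ≠ 0 := by
    by_contra hcon
    push Not at hcon
    obtain ⟨h5, h6⟩ := hcon
    have hx : x = 0 := by simpa using congrArg Complex.re h5
    have hy : y = 0 := by simpa using congrArg Complex.im h5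
    have hz : z = 0 := by simpa using congrArg Complex.re h6
    have hw : w = 0 := by simpa using congrArg Complex.im h6
    rcases hne with h | h | h | h
    · exact h hx
    · exact h hy
    · exact h hz
    · exact h hw
  obtain ⟨ν, hν, h2⟩ := E_div (refl (vD i) V) ⟨x, y⟩ ⟨z, w⟩ hne'
  refine ⟨μ / ν, by positivity, ?_⟩
  rw [hs, h1]
  rw [← hp] at h2
  rw [h2]
  have ure : u.re = a * x - a' * -y + (b * z - b' * -w) := by
    rw [hu, ha, hb]; simp [Complex.add_re, Complex.mul_re]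
  have uim : u.im = a * -y + a' * x + (b * -w + b' * z) := by
    rw [hu, ha, hb]; simp [Complex.add_im, Complex.mul_im]
  have vre : v.re = c * x - c' * -y + (d * z - d' * -w) := by
    rw [hv, hc, hd]; simp [Complex.add_re, Complex.mul_re]
  have vim : v.im = c * -y + c' * x + (d * -w + d' * z) := by
    rw [hv, hc, hd]; simp [Complex.add_im, Complex.mul_im]
  rw [ure, uim, vre, vim, hE V x y z w]
  simp only
  field_simp

theorem cont_cj : Continuous cj := by
  unfold cj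
  exact OnePoint.continuous_map Complex.continuous_conj
    (Complex.conjCLE.toHomeomorph.map_coclosedCompact.le)

theorem cont_s (i : Fin 4) : Continuous (s i) :=
  (Pool.Agent.TH230.Aug.continuous_smul_sph (M i)).comp cont_cj

/-- the normalised form -/
noncomputable def Fn (V : HV) (z : OnePoint ℂ) : ℝ :=
  z.elim V.k (fun z : ℂ => (V.k * (z.re ^ 2 + z.im ^ 2) - 2 * (V.p * z.re + V.q * z.im) + V.c) /
    (1 + ‖z‖ ^ 2))

theorem cont_Fn (V : HV) : Continuous (Fn V) := by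
  rw [OnePoint.continuous_iff]
  constructor
  · have h1 : Fn V OnePoint.infty = V.k := rfl
    rw [h1, Filter.coclosedCompact_eq_cocompact]
    have hn : Tendsto (fun z : ℂ => ‖z‖) (cocompact ℂ) atTop := tendsto_norm_cocompact_atTop
    have key : ∀ z : ℂ, Fn V (z : OnePoint ℂ) - V.k =
        (-2 * (V.p * z.re + V.q * z.im) + (V.c - V.k)) / (1 + ‖z‖ ^ 2) := by
      intro z
      have h2 : Fn V (z : OnePoint ℂ) = (V.k * (z.re ^ 2 + z.im ^ 2) -
        2 * (V.p * z.re + V.q * z.im) + V.c) / (1 + ‖z‖ ^ 2) := rfl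
      have h3 : ‖z‖ ^ 2 = z.re ^ 2 + z.im ^ 2 := by
        rw [Complex.sq_norm, Complex.normSq_apply]; ring
      rw [h2, h3]
      have : 0 < 1 + (z.re ^ 2 + z.im ^ 2) := by positivity
      field_simp
      ring
    have hb : ∀ z : ℂ, 1 ≤ ‖z‖ → |Fn V (z : OnePoint ℂ) - V.k| ≤
        (2 * (|V.p| + |V.q|) + |V.c - V.k|) * ‖z‖⁻¹ := by
      intro z hz
      rw [key z, abs_div, abs_of_pos (show 0 < 1 + ‖z‖ ^ 2 by positivity)]
      have hz0 : 0 < ‖z‖ := by linarith
      rw [div_le_iff₀ (by positivity)]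
      have h4 : |(-2 * (V.p * z.re + V.q * z.im) + (V.c - V.k))| ≤
          (2 * (|V.p| + |V.q|) + |V.c - V.k|) * ‖z‖ := by
        have a1 : |V.p * z.re| ≤ |V.p| * ‖z‖ := by
          rw [abs_mul]
          exact mul_le_mul_of_nonneg_left (Complex.abs_re_le_norm z) (abs_nonneg _)
        have a2 : |V.q * z.im| ≤ |V.q| * ‖z‖ := by
          rw [abs_mul]
          exact mul_le_mul_of_nonneg_left (Complex.abs_im_le_norm z) (abs_nonneg _)
        have a3 : |V.c - V.k| ≤ |V.c - V.k| * ‖z‖ := le_mul_of_one_le_right (abs_nonneg _) hz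
        have b1 := abs_le.1 a1
        have b2 := abs_le.1 a2
        have b3 := abs_le.1 a3
        rw [abs_le]
        constructor <;> nlinarith [b1.1, b1.2, b2.1, b2.2, b3.1, b3.2]
      refine h4.trans ?_
      have h5 : (2 * (|V.p| + |V.q|) + |V.c - V.k|) * ‖z‖⁻¹ * (1 + ‖z‖ ^ 2) =
        (2 * (|V.p| + |V.q|) + |V.c - V.k|) * (‖z‖⁻¹ + ‖z‖) := by
        field_simp
      rw [h5]
      have h6 : 0 ≤ ‖z‖⁻¹ := by positivity
      exact mul_le_mul_of_nonneg_left (by linarith) (by positivity)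
    have hlim : Tendsto (fun z : ℂ => (2 * (|V.p| + |V.q|) + |V.c - V.k|) * ‖z‖⁻¹)
        (cocompact ℂ) (𝓝 0) := by
      have := (tendsto_inv_atTop_zero.comp hn).const_mul (2 * (|V.p| + |V.q|) + |V.c - V.k|)
      simpa using this
    have h7 : Tendsto (fun z : ℂ => Fn V (z : OnePoint ℂ) - V.k) (cocompact ℂ) (𝓝 0) := by
      apply squeeze_zero_norm' _ hlim
      filter_upwards [hn.eventually_ge_atTop 1] with z hz
      rw [Real.norm_eq_abs]
      exact hb z hz
    have h8 := h7.add_const V.k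
    simpa using h8
  · have h2 : (fun z : ℂ => Fn V (z : OnePoint ℂ)) = fun z : ℂ => (V.k * (z.re ^ 2 + z.im ^ 2) -
        2 * (V.p * z.re + V.q * z.im) + V.c) / (1 + ‖z‖ ^ 2) := rfl
    rw [h2]
    apply Continuous.div
    · have h1 : Continuous fun z : ℂ => z.re := Complex.continuous_re
      have h2 : Continuous fun z : ℂ => z.im := Complex.continuous_im
      fun_prop
    · fun_prop
    · intro z
      positivity

theorem Fn_eq (V : HV) (z : OnePoint ℂ) : ∃ μ : ℝ, 0 < μ ∧ Fn V z = μ * E V z := by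
  induction z using OnePoint.rec with
  | infty =>
    refine ⟨1, one_pos, ?_⟩
    rw [one_mul]
    rfl
  | coe z =>
    refine ⟨1 / (1 + ‖z‖ ^ 2), by positivity, ?_⟩
    have h2 : Fn V (z : OnePoint ℂ) = (V.k * (z.re ^ 2 + z.im ^ 2) -
        2 * (V.p * z.re + V.q * z.im) + V.c) / (1 + ‖z‖ ^ 2) := rfl
    have h3 : E V (z : OnePoint ℂ) = (V.k * (z.re ^ 2 + z.im ^ 2) -
        2 * (V.p * z.re + V.q * z.im) + V.c) := rfl
    rw [h2, h3]
    ring

theorem closed_le (V : HV) : IsClosed {z : OnePoint ℂ | E V z ≤ 0} := by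
  have : {z : OnePoint ℂ | E V z ≤ 0} = {z | Fn V z ≤ 0} := by
    ext z
    obtain ⟨μ, hμ, h⟩ := Fn_eq V z
    simp only [mem_setOf_eq, h]
    constructor
    · intro h1; exact mul_nonpos_of_nonneg_of_nonpos hμ.le h1
    · intro h1; by_contra h2; push Not at h2; linarith [mul_pos hμ h2]
  rw [this]
  exact isClosed_le (cont_Fn V) continuous_const

theorem open_lt (V : HV) : IsOpen {z : OnePoint ℂ | E V z < 0} := by
  have : {z : OnePoint ℂ | E V z < 0} = {z | Fn V z < 0} := by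
    ext z
    obtain ⟨μ, hμ, h⟩ := Fn_eq V z
    simp only [mem_setOf_eq, h]
    constructor
    · intro h1; exact mul_neg_of_pos_of_neg hμ h1
    · intro h1; by_contra h2; push Not at h2; linarith [mul_nonneg hμ.le h2]
  rw [this]
  exact isOpen_lt (cont_Fn V) continuous_const

theorem closed_eq (V : HV) : IsClosed {z : OnePoint ℂ | E V z = 0} := by
  have : {z : OnePoint ℂ | E V z = 0} = {z | Fn V z = 0} := by
    ext z
    obtain ⟨μ, hμ, h⟩ := Fn_eq V z
    simp only [mem_setOf_eq, h]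
    constructor
    · intro h1; rw [h1, mul_zero]
    · intro h1; exact (mul_eq_zero.1 h1).resolve_left hμ.ne'
  rw [this]
  exact isClosed_eq (cont_Fn V) continuous_const

theorem bf1 : (∀ i p, s i (s i p) = p) ∧
    (∀ i V p, ∃ μ : ℝ, 0 < μ ∧ E V (s i p) = μ * E (refl (vD i) V) p) ∧
    (∀ i, Continuous (s i)) ∧ (∀ i, IsClosed (Disc i)) ∧ (∀ i, IsOpen (DiscI i)) ∧
    (∀ i, IsClosed (Cir i)) :=
  ⟨s_s, E_s, cont_s, fun i => closed_le (vD i), fun i => open_lt (vD i), fun i => closed_eq (vC i)⟩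

end Pool.Agent.TH883.AP
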